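import Pool.Agent.Q78.BN.Loci

/-!
# Brill-Noether loci of `g^r_d`'s are contained in loci of nets in small degree
-/

namespace Pool.Agent.Results.MP_54820f_ag.SmallDegree

open Pool.Agent.Helper395.CS hiding genus map_mul map_inv
open Pool.Agent.Helper395.BC Pool.Agent.Q78.BN

/-- **Disproof.** For all `r ≥ 3`, `d ≥ 2r` and all `g` with `(d-1)(d-2) < 2g` the nonempty
Brill-Noether locus `𝓜^r_{g,d}` is contained in `𝓜^2_{g,e}` with `e = d - 2r + 4`, although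
`e < d - 2r + 2 + ⌊(r+3)/2⌋`; so the non-containment fails for every `g ≥ 11`. -/
theorem result :
    (∀ (g : ℕ) (r d : ℤ), 3 ≤ r → 2 * r ≤ d → (d - 1) * (d - 2) < 2 * g →
      d ≤ g - 1 ∧ d - 2 * r + 4 ≤ g - 1 ∧ rho g r d < 0 ∧ rho g 2 (d - 2 * r + 4) < 0 ∧
      d - 2 * r + 4 < d - 2 * r + 2 + (r + 3) / 2 ∧ LocusNonempty g r d ∧
      LocusSubset g r d 2 (d - 2 * r + 4)) ∧
    ¬ ∃ g₀ : ℕ, ∀ g : ℕ, g₀ ≤ g → ∀ r d e : ℤ, 3 ≤ r → d ≤ g - 1 → e ≤ g - 1 →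
      rho g r d < 0 → rho g 2 e < 0 → e < d - 2 * r + 2 + (r + 3) / 2 →
      ¬ LocusSubset g r d 2 e := by
  have key : ∀ (g : ℕ) (r d : ℤ), 3 ≤ r → 2 * r ≤ d → (d - 1) * (d - 2) < 2 * g →
      d ≤ g - 1 ∧ d - 2 * r + 4 ≤ g - 1 ∧ rho g r d < 0 ∧ rho g 2 (d - 2 * r + 4) < 0 ∧
      d - 2 * r + 4 < d - 2 * r + 2 + (r + 3) / 2 ∧ LocusNonempty g r d ∧
      LocusSubset g r d 2 (d - 2 * r + 4) := by
    intro g r d hr hd hdg
    have h1 := lt_g (by linarith) hdg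
    have hg : 7 ≤ g := by
      by_contra h
      have : (g : ℤ) < 7 := by omega
      linarith
    refine ⟨by linarith, by linarith, rho_neg (by linarith) (by linarith) h1,
      rho_neg (by norm_num) (by linarith) (by linarith), by omega,
      locusNonempty hg (by linarith) hd, ?_⟩
    have h2 := locusSubset (g := g) (r := r) (s := 2) (d := d) (by omega) (by linarith) hdg
      (by norm_num) (by linarith)
    have h3 : d - 2 * r + 2 * 2 = d - 2 * r + 4 := by ring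
    rwa [h3] at h2
  refine ⟨key, ?_⟩
  rintro ⟨g₀, h⟩
  have h1 := key (g₀ + 11) 3 6 le_rfl (by norm_num) (by push_cast; linarith)
  exact h (g₀ + 11) (by omega) 3 6 _ le_rfl h1.1 h1.2.1 h1.2.2.1 h1.2.2.2.1 h1.2.2.2.2.1
    h1.2.2.2.2.2.2

end Pool.Agent.Results.MP_54820f_ag.SmallDegree
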